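import Pool.Agent.ZPT.Stmts

/-!
# ZPT, rows HF and HU: Hermite form of integer matrices of determinant `m`
-/

set_option autoImplicit false

namespace Pool.Agent.ZPT.H32

open Pool.Agent.ZPT

theorem mem_idx {m : ℕ} {x : ℕ × ℕ} : x ∈ idx m ↔ (x.1 ∣ m ∧ m ≠ 0) ∧ x.2 < m ∧ x.2 < m / x.1 := by
  unfold idx
  rw [Finset.mem_filter, Finset.mem_product, Nat.mem_divisors, Finset.mem_range, and_assoc]

theorem hf : HFStmt := by
  intro m hm a b c d hdet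
  have hm0 : (0 : ℤ) < m := by exact_mod_cast hm
  -- the gcd
  obtain ⟨α, hα⟩ : ∃ α : ℕ, α = Int.gcd a c := ⟨_, rfl⟩
  have hαpos : 0 < α := by
    rcases Nat.eq_zero_or_pos α with h0 | h0
    · exfalso
      rw [h0] at hα
      obtain ⟨h1, h2⟩ := Int.gcd_eq_zero_iff.1 hα.symm
      rw [h1, h2] at hdet
      simp at hdet
      omega
    · exact h0
  obtain ⟨p, hp⟩ : (α : ℤ) ∣ a := by rw [hα]; exact Int.gcd_dvd_left _ _
  obtain ⟨r, hr⟩ : (α : ℤ) ∣ c := by rw [hα]; exact Int.gcd_dvd_right _ _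
  obtain ⟨A, B, hbez⟩ : ∃ A B : ℤ, (α : ℤ) = a * A + c * B :=
    ⟨Int.gcdA a c, Int.gcdB a c, by rw [hα]; exact Int.gcd_eq_gcd_ab a c⟩
  obtain ⟨s₀, hs₀⟩ : ∃ s₀ : ℤ, s₀ = A := ⟨_, rfl⟩
  obtain ⟨q₀, hq₀⟩ : ∃ q₀ : ℤ, q₀ = - B := ⟨_, rfl⟩
  have hαz : (α : ℤ) ≠ 0 := by positivity
  have h1 : p * s₀ - q₀ * r = 1 := by
    have : (α : ℤ) * (p * s₀ - q₀ * r) = α * 1 := by
      rw [hs₀, hq₀]
      linear_combination (-1) * hbez + (-A) * hp + (-B) * hr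
    exact mul_left_cancel₀ hαz this
  obtain ⟨δ, hδ⟩ : ∃ δ : ℤ, δ = p * d - r * b := ⟨_, rfl⟩
  have h2 : (α : ℤ) * δ = m := by
    rw [hδ, ← hdet, hp, hr]; ring
  have hα0 : (0 : ℤ) < α := by exact_mod_cast hαpos
  have hδpos : 0 < δ := by
    by_contra hcon
    have : (α : ℤ) * δ ≤ 0 := mul_nonpos_of_nonneg_of_nonpos hα0.le (not_lt.1 hcon)
    omega
  obtain ⟨β₀, hβ₀⟩ : ∃ β₀ : ℤ, β₀ = s₀ * b - q₀ * d := ⟨_, rfl⟩
  have hb0 : b = p * β₀ + q₀ * δ := by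
    rw [hβ₀, hδ]
    linear_combination (-b) * h1
  have hd0 : d = r * β₀ + s₀ * δ := by
    rw [hβ₀, hδ]
    linear_combination (-d) * h1
  obtain ⟨t, ht⟩ : ∃ t : ℤ, t = β₀ / δ := ⟨_, rfl⟩
  obtain ⟨β, hβ⟩ : ∃ β : ℤ, β = β₀ % δ := ⟨_, rfl⟩
  have hdm : β + δ * t = β₀ := by rw [hβ, ht]; exact Int.emod_add_mul_ediv β₀ δ
  have hβ0 : 0 ≤ β := by rw [hβ]; exact Int.emod_nonneg _ hδpos.ne'
  have hβ1 : β < δ := by rw [hβ]; exact Int.emod_lt_of_pos _ hδpos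
  obtain ⟨δn, rfl⟩ := Int.eq_ofNat_of_zero_le hδpos.le
  obtain ⟨βn, rfl⟩ := Int.eq_ofNat_of_zero_le hβ0
  have h2' : α * δn = m := by exact_mod_cast h2
  have hdiv : m / α = δn := by rw [← h2']; exact Nat.mul_div_cancel_left _ hαpos
  have hlt : βn < δn := by exact_mod_cast hβ1
  refine ⟨p, q₀ + t * p, r, s₀ + t * r, ?_, (α, βn), ?_, ?_, ?_, ?_, ?_⟩
  · linear_combination h1
  · rw [mem_idx]
    refine ⟨⟨⟨δn, h2'.symm⟩, by omega⟩, ?_, ?_⟩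
    · show βn < m
      have : δn ≤ m := by rw [← h2']; exact Nat.le_mul_of_pos_left _ hαpos
      omega
    · show βn < m / α
      rw [hdiv]; exact hlt
  · show a = p * (α : ℤ)
    rw [hp]; ring
  · show b = p * (βn : ℤ) + (q₀ + t * p) * ((m / α : ℕ) : ℤ)
    rw [hdiv, hb0, ← hdm]; ring
  · show c = r * (α : ℤ)
    rw [hr]; ring
  · show d = r * (βn : ℤ) + (s₀ + t * r) * ((m / α : ℕ) : ℤ)
    rw [hdiv, hd0, ← hdm]; ring

theorem hu : HUStmt := by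
  intro m hm x hx y hy p q r s hdet e1 e2 e3 e4
  rw [mem_idx] at hx hy
  obtain ⟨⟨hx1, hm0⟩, -, hx2⟩ := hx
  obtain ⟨⟨hy1, -⟩, -, hy2⟩ := hy
  have hxp : 0 < x.1 := Nat.pos_of_dvd_of_pos hx1 (Nat.pos_of_ne_zero hm0)
  have hyp : 0 < y.1 := Nat.pos_of_dvd_of_pos hy1 (Nat.pos_of_ne_zero hm0)
  have hyz : (0 : ℤ) < y.1 := by exact_mod_cast hyp
  have hxz : (0 : ℤ) < x.1 := by exact_mod_cast hxp
  have hr : r = 0 := by
    rcases mul_eq_zero.1 e3.symm with h | h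
    · exact h
    · omega
  rw [hr] at hdet
  have hps : p * s = 1 := by linarith
  have hp0 : 0 < p := by
    by_contra hcon
    have : p * (y.1 : ℤ) ≤ 0 := mul_nonpos_of_nonpos_of_nonneg (not_lt.1 hcon) hyz.le
    omega
  have hp : p = 1 := by
    rcases Int.isUnit_iff.1 (IsUnit.of_mul_eq_one s hps) with h | h
    · exact h
    · omega
  rw [hp, one_mul] at e1
  have h1 : x.1 = y.1 := by exact_mod_cast e1
  rw [hp, one_mul] at e2
  rw [h1] at hx2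
  have h2 : (x.2 : ℤ) < ((m / y.1 : ℕ) : ℤ) := by exact_mod_cast hx2
  have h3 : (y.2 : ℤ) < ((m / y.1 : ℕ) : ℤ) := by exact_mod_cast hy2
  have hq : q = 0 := by
    by_contra hne
    rcases lt_or_gt_of_ne hne with h | h
    · have : q * ((m / y.1 : ℕ) : ℤ) ≤ (-1) * ((m / y.1 : ℕ) : ℤ) :=
        mul_le_mul_of_nonneg_right (by omega) (by positivity)
      omega
    · have : 1 * ((m / y.1 : ℕ) : ℤ) ≤ q * ((m / y.1 : ℕ) : ℤ) :=
        mul_le_mul_of_nonneg_right (by omega) (by positivity)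
      omega
  rw [hq, zero_mul, add_zero] at e2
  exact Prod.ext h1 (by exact_mod_cast e2)

end Pool.Agent.ZPT.H32
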